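import Pool.Agent.H25.GCirc

namespace Pool.Agent.Results.MP_2b14c6_co.FiveSides

open Pool.Agent.H25.GCirc

abbrev E := EuclideanSpace ℝ (Fin 3)

/-- the great circle of the unit sphere with normal vector `a` -/
def circle (a : E) : Set E := {x | x ∈ Metric.sphere (0 : E) 1 ∧ inner ℝ a x = 0}

/-- `n` distinct great circles, no point on three of them -/
def SimpleArr {n : ℕ} (A : Fin n → E) : Prop :=
  (∀ i, A i ≠ 0) ∧ (∀ i j, i ≠ j → circle (A i) ≠ circle (A j)) ∧
  ∀ i j k, i ≠ j → i ≠ k → j ≠ k → ∀ x, ¬ (x ∈ circle (A i) ∧ x ∈ circle (A j) ∧ x ∈ circle (A k))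

def compl {n : ℕ} (A : Fin n → E) : Set E := Metric.sphere (0 : E) 1 \ ⋃ i, circle (A i)

/-- faces: connected components of the sphere minus the circles -/
def IsFace {n : ℕ} (A : Fin n → E) (F : Set E) : Prop := ∃ x ∈ compl A, F = connectedComponentIn (compl A) x

/-- the circles that carry a side of `F`: they contain two points of the closure of `F` that are
neither equal nor antipodal -/
def sides {n : ℕ} (A : Fin n → E) (F : Set E) : Set (Fin n) :=
  {i | ∃ y ∈ closure F ∩ circle (A i), ∃ z ∈ closure F ∩ circle (A i), y ≠ z ∧ y ≠ -z}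

noncomputable def toE (a : V) : E := !₂[a.1, a.2.1, a.2.2]
def ofE (x : E) : V := (x 0, x 1, x 2)

theorem inner_toE (a : V) (x : E) : inner ℝ (toE a) x = dot a (ofE x) := by
  simp [toE, ofE, dot, PiLp.inner_apply, Fin.sum_univ_three]; ring

theorem ofE_toE (a : V) : ofE (toE a) = a := by simp [toE, ofE]

theorem ofE_inj {x y : E} (h : ofE x = ofE y) : x = y := by
  simp only [ofE, Prod.mk.injEq] at h
  ext i; fin_cases i <;> simp [h.1, h.2.1, h.2.2]

theorem par (a b c x : V) (ha : dot a x = 0) (hb : dot b x = 0) : det a b c • x = dot c x • cr a b := by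
  have e1 := gp a b c (1, 0, 0) x
  have e2 := gp a b c (0, 1, 0) x
  have e3 := gp a b c (0, 0, 1) x
  rw [ha, hb] at e1 e2 e3
  simp only [det, dot, cr] at e1 e2 e3 ⊢
  refine Prod.ext ?_ (Prod.ext ?_ ?_) <;> simp only [Prod.smul_fst, Prod.smul_snd, smul_eq_mul] <;> linarith

theorem third {n : ℕ} (hn : 3 ≤ n) (i j : ℕ) : ∃ k < n, k ≠ i ∧ k ≠ j := by
  by_cases h0 : 0 ≠ i ∧ 0 ≠ j
  · exact ⟨0, by omega, h0⟩
  by_cases h1 : 1 ≠ i ∧ 1 ≠ j
  · exact ⟨1, by omega, h1⟩
  exact ⟨2, by omega, by omega⟩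

theorem result (n : ℕ) (hn : 3 ≤ n) :
    ∃ A : Fin n → E, SimpleArr A ∧ ∀ F, IsFace A F → (sides A F).ncard ≤ 5 := by
  obtain ⟨a, hg, h5, -⟩ := ex n hn
  have htr : ∀ i j k : Fin n, i ≠ j → i ≠ k → j ≠ k → ∀ x,
      ¬ (x ∈ circle (toE (a i)) ∧ x ∈ circle (toE (a j)) ∧ x ∈ circle (toE (a k))) := by
    rintro i j k t1 t2 t3 x ⟨⟨h0, h1⟩, ⟨-, h2⟩, -, h3⟩
    rw [inner_toE] at h1 h2 h3
    have hD := hg i i.2 j j.2 k k.2 (Fin.val_ne_of_ne t1) (Fin.val_ne_of_ne t2) (Fin.val_ne_of_ne t3)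
    have := par _ _ (a k) _ h1 h2
    rw [h3, zero_smul, smul_eq_zero] at this
    have hx : x = 0 := ofE_inj (by rw [this.resolve_left hD]; rfl)
    simp [hx] at h0
  refine ⟨fun i => toE (a i), ⟨fun i h0 => ?_, fun i j hij he => ?_, htr⟩, ?_⟩
  · obtain ⟨j, j1, j2, -⟩ := third hn i i
    obtain ⟨k, k1, k2, k3⟩ := third hn i j
    apply hg i i.2 j j1 k k1 j2.symm k2.symm k3.symm
    have : a i = 0 := by rw [← ofE_toE (a i), show toE (a i) = 0 from h0]; rfl
    simp [this, det, dot]
  · obtain ⟨k, k1, k2, k3⟩ := third hn i j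
    have hD := hg j j.2 i i.2 k k1 (Fin.val_ne_of_ne hij).symm k3.symm k2.symm
    have hu : toE (cr (a i) (a k)) ≠ 0 := by
      intro h0
      apply hD
      have : cr (a i) (a k) = 0 := by rw [← ofE_toE (cr _ _), h0]; rfl
      simp [det, this, dot]
    have hm : ‖toE (cr (a i) (a k))‖⁻¹ • toE (cr (a i) (a k)) ∈ circle (toE (a i)) := by
      refine ⟨by simp [norm_smul, hu], ?_⟩
      rw [inner_smul_right, inner_toE, ofE_toE]
      exact mul_eq_zero_of_right _ (det_l _ _)
    rw [show circle (toE (a i)) = circle (toE (a j)) from he] at hm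
    have := hm.2
    rw [inner_smul_right, inner_toE, ofE_toE, mul_eq_zero] at this
    rcases this with h | h
    · exact hu (by simpa using h)
    · exact hD h
  · rintro F ⟨x, hx, rfl⟩
    have hne : ∀ y ∈ compl (fun i : Fin n => toE (a i)), ∀ j < n, dot (a j) (ofE y) ≠ 0 := by
      intro y hy j hj h0
      exact hy.2 (Set.mem_iUnion.2 ⟨⟨j, hj⟩, hy.1, by rw [inner_toE]; exact h0⟩)
    have hcont : ∀ j, Continuous fun y : E => dot (a j) (ofE x) * dot (a j) (ofE y) := by
      intro j; simp only [dot, ofE]; fun_prop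
    have hcl : ∀ y ∈ closure (connectedComponentIn (compl fun i : Fin n => toE (a i)) x), ∀ j < n,
        0 ≤ dot (a j) (ofE x) * dot (a j) (ofE y) := by
      intro y hy j hj
      refine closure_minimal (t := {y | 0 ≤ dot (a j) (ofE x) * dot (a j) (ofE y)}) (fun z hz => ?_)
        (isClosed_le continuous_const (hcont j)) hy
      by_contra hlt
      have hlt : dot (a j) (ofE x) * dot (a j) (ofE z) < 0 := not_le.1 hlt
      obtain ⟨w, hw, hw0⟩ := isPreconnected_connectedComponentIn.intermediate_value hz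
        (mem_connectedComponentIn hx) (hcont j).continuousOn (⟨hlt.le, mul_self_nonneg _⟩ : (0 : ℝ) ∈ Set.Icc _ _)
      exact mul_ne_zero (hne x hx j hj) (hne w (connectedComponentIn_subset _ _ hw) j hj) hw0
    refine le_trans ?_ (h5 (fun j => dot (a j) (ofE x)) (hne x hx))
    rw [← Set.ncard_coe_finset]
    refine Set.ncard_le_ncard_of_injOn (fun i : Fin n => (i : ℕ)) ?_ (fun i _ j _ h => Fin.ext h)
      (Finset.finite_toSet _)
    rintro i ⟨y, ⟨y1, y2, y3⟩, z, ⟨z1, z2, z3⟩, t1, t2⟩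
    rw [inner_toE] at y3 z3
    refine Finset.mem_coe.2 (mem_Sides.2 ⟨i.2, ofE y + ofE z, by rw [dot_add, y3, z3, add_zero], fun j j1 j2 => ?_⟩)
    have s1 := hcl y y1 j j1
    have s2 := hcl z z1 j j1
    rw [dot_add, mul_add]
    by_contra hle
    have s3 : dot (a j) (ofE y) = 0 := (mul_eq_zero.1 (by linarith)).resolve_left (hne x hx j j1)
    have s4 : dot (a j) (ofE z) = 0 := (mul_eq_zero.1 (by linarith)).resolve_left (hne x hx j j1)
    obtain ⟨k, k1, k2, k3⟩ := third hn i j
    have hD := hg i i.2 j j1 k k1 j2.symm k2.symm k3.symm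
    have p1 := par _ _ (a k) _ y3 s3
    have p2 := par _ _ (a k) _ z3 s4
    set α := dot (a k) (ofE y)
    set β := dot (a k) (ofE z)
    have p3 : β • y = α • z := by
      apply ofE_inj
      apply smul_right_injective _ hD
      show det _ _ _ • (β • ofE y) = det _ _ _ • (α • ofE z)
      rw [smul_comm, p1, smul_comm (det _ _ _) α, p2, smul_comm]
    have ny : ‖y‖ = 1 := by simpa using y2
    have nz : ‖z‖ = 1 := by simpa using z2
    have hα : α ≠ 0 := by
      intro h0
      rw [h0, zero_smul, smul_eq_zero] at p1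
      have : y = 0 := ofE_inj (by rw [p1.resolve_left hD]; rfl)
      simp [this] at ny
    have p4 : |β| = |α| := by simpa [norm_smul, ny, nz] using congrArg norm p3
    rcases abs_eq_abs.1 p4 with h | h
    · rw [h] at p3; exact t1 (smul_right_injective _ hα p3)
    · rw [h] at p3
      apply t2
      apply smul_right_injective _ hα
      show α • y = α • -z
      rw [smul_neg, ← p3, neg_smul, neg_neg]

end Pool.Agent.Results.MP_2b14c6_co.FiveSides
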